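import Mathlib

/-!
# Project LN (helper675): squarefree congruent numbers in residue classes, exponent `4 + ε`

Definitions and statements.  `F k a b = a b (a² - (3k)² b²)` is, up to a square factor, the
congruent number form `u v (u² - v²)` with `u = a`, `v = 3 k b`.
-/

set_option autoImplicit false

namespace Pool.Agent.Y675.LN

/-- the quartic form `a b (a² - K² b²)`, `K = 3 k` -/
def F {R : Type*} [CommRing R] (k a b : R) : R := a * b * (a ^ 2 - (3 * k) ^ 2 * b ^ 2)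

/-- product of `a b` and of the four directional derivatives (up to units and the factor `3`) -/
def E {R : Type*} [CommRing R] (k a b : R) : R :=
  a * b * (a ^ 2 - 27 * k ^ 2 * b ^ 2) * (a ^ 2 - 3 * k ^ 2 * b ^ 2) *
    (a ^ 2 + 12 * k * a * b + 9 * k ^ 2 * b ^ 2) * (a ^ 2 - 12 * k * a * b + 9 * k ^ 2 * b ^ 2)

/-- the nonsingular solutions of `F = A` modulo `M` -/
def S (k A M : ℕ) : Set (ZMod M × ZMod M) :=
  {x | F (k : ZMod M) x.1 x.2 = (A : ZMod M) ∧ IsUnit (E (k : ZMod M) x.1 x.2)}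

/-- number of prime factors -/
def om (M : ℕ) : ℕ := M.primeFactors.card

/-- points of the curve `u v (u² - v²) = B` over `ZMod p` -/
def S_CURVE : Prop := ∀ p : ℕ, p.Prime → ∀ B : ZMod p, B ≠ 0 →
  (p : ℝ) - 3 - 7 * Real.sqrt p ≤
    (({x : ZMod p × ZMod p | x.1 * x.2 * (x.1 ^ 2 - x.2 ^ 2) = B}.ncard : ℕ) : ℝ)

/-- at least `p / 2` nonsingular points modulo `p` -/
def S_LOC : Prop := ∀ k A p : ℕ, p.Prime → (p ∣ 3 * k ∨ 1000 < p) → ¬ p ∣ A →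
  p ≤ 2 * (S k A p).ncard

/-- Hensel lifting -/
def S_HENSEL : Prop := ∀ k A p n : ℕ, p.Prime → 1 ≤ n →
  p ^ (n - 1) * (S k A p).ncard ≤ (S k A (p ^ n)).ncard

/-- Chinese remainder theorem -/
def S_CRT : Prop := ∀ k A m n : ℕ, 0 < m → 0 < n → Nat.Coprime m n →
  (S k A (m * n)).ncard = (S k A m).ncard * (S k A n).ncard

/-- lower bound for the number of solutions modulo `M` -/
def S_LOW : Prop := ∀ k A M : ℕ, 0 < M → (∀ p : ℕ, p.Prime → p ∣ M → (p ∣ 3 * k ∨ 1000 < p)) →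
  Nat.Coprime A M → M ≤ 2 ^ om M * (S k A M).ncard

/-- the four fibre bounds for a prime power modulus -/
def S_FIBP : Prop := ∀ k A p n : ℕ, p.Prime → ¬ p ∣ A → ∀ w : ZMod (p ^ n),
  {x ∈ S k A (p ^ n) | x.1 = w}.ncard ≤ 3 ∧ {x ∈ S k A (p ^ n) | x.2 = w}.ncard ≤ 3 ∧
  {x ∈ S k A (p ^ n) | x.1 - 3 * (k : ZMod (p ^ n)) * x.2 = w}.ncard ≤ 3 ∧
  {x ∈ S k A (p ^ n) | x.1 + 3 * (k : ZMod (p ^ n)) * x.2 = w}.ncard ≤ 3

/-- the four fibre bounds -/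
def S_FIB : Prop := ∀ k A M : ℕ, 0 < M → Nat.Coprime A M → ∀ w : ZMod M,
  {x ∈ S k A M | x.1 = w}.ncard ≤ 3 ^ om M ∧ {x ∈ S k A M | x.2 = w}.ncard ≤ 3 ^ om M ∧
  {x ∈ S k A M | x.1 - 3 * (k : ZMod M) * x.2 = w}.ncard ≤ 3 ^ om M ∧
  {x ∈ S k A M | x.1 + 3 * (k : ZMod M) * x.2 = w}.ncard ≤ 3 ^ om M

/-- the pairs of the box `(3kJM, 6kJM] × (0, JM]` which reduce to `S` modulo `M` -/
def Pr (k A M J : ℕ) : Set (ℕ × ℕ) :=
  {x | 3 * k * J * M < x.1 ∧ x.1 ≤ 2 * (3 * k * J * M) ∧ 0 < x.2 ∧ x.2 ≤ J * M ∧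
    ((x.1 : ZMod M), (x.2 : ZMod M)) ∈ S k A M}

/-- `d` divides one of the four linear factors of `F` -/
def Dv (k d : ℕ) (x : ℕ × ℕ) : Prop :=
  d ∣ x.1 ∨ d ∣ x.2 ∨ d ∣ x.1 - 3 * k * x.2 ∨ d ∣ x.1 + 3 * k * x.2

/-- number of pairs of the box -/
def S_BOX : Prop := ∀ k A M J : ℕ, 0 < M → (Pr k A M J).ncard = 3 * k * J * J * (S k A M).ncard

/-- pairs of the box with an additional condition modulo `d` -/
def S_TBOX : Prop := ∀ k A M J d : ℕ, 0 < k → 0 < M → 0 < d → d ≤ J → Nat.Coprime M d →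
  ∀ T : Set (ZMod d × ZMod d),
    d ^ 2 * {x ∈ Pr k A M J | ((x.1 : ZMod d), (x.2 : ZMod d)) ∈ T}.ncard ≤
      12 * k * J ^ 2 * (S k A M).ncard * T.ncard

/-- small `d` -/
def S_SMALL : Prop := ∀ k A M J d : ℕ, 0 < k → 0 < M → 0 < d → d ≤ J → Nat.Coprime M d →
  d * {x ∈ Pr k A M J | Dv k d x}.ncard ≤ 48 * k * J ^ 2 * (S k A M).ncard ∧
  d ^ 2 * {x ∈ Pr k A M J | d ∣ x.1 ∧ d ∣ x.2}.ncard ≤ 12 * k * J ^ 2 * (S k A M).ncard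

/-- large `d` -/
def S_LARGE : Prop := ∀ k A M J d : ℕ, 0 < k → 0 < M → 0 < J → 0 < d → Nat.Coprime M d →
  Nat.Coprime A M →
  d * {x ∈ Pr k A M J | Dv k d x}.ncard ≤ 24 * k * J ^ 2 * M * 3 ^ om M ∧
  d ^ 2 * {x ∈ Pr k A M J | d ∣ x.1 ∧ d ∣ x.2}.ncard ≤ 6 * k * J * M * 3 ^ om M * (J + d)

/-- `n` is the area of a right triangle with rational sides -/
def IsCongruent (n : ℕ) : Prop :=
  ∃ a b c : ℚ, 0 < a ∧ 0 < b ∧ 0 < c ∧ a ^ 2 + b ^ 2 = c ^ 2 ∧ (n : ℚ) = a * b / 2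

/-- the number attached to a pair -/
def val (g k : ℕ) (x : ℕ × ℕ) : ℕ := g * (x.1 * x.2 * (x.1 ^ 2 - (3 * k) ^ 2 * x.2 ^ 2))

/-- good pairs give squarefree congruent numbers in the residue class `g A` modulo `g M` -/
def S_GOOD : Prop := ∀ c g k M A : ℕ, 0 < c → 2 ∣ c → 0 < M → Squarefree g → 3 * k = c ^ 2 * g →
  (∀ p : ℕ, p.Prime → p ∣ c → p ∣ M) → Nat.Coprime A M →
  ∀ x : ℕ × ℕ, 0 < x.2 → 3 * k * x.2 < x.1 → ((x.1 : ZMod M), (x.2 : ZMod M)) ∈ S k A M →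
  (∀ p : ℕ, p.Prime → ¬ p ∣ M → p ∣ g → ¬ Dv k p x) →
  (∀ p : ℕ, p.Prime → ¬ p ∣ M → ¬ Dv k (p ^ 2) x) →
  (∀ p : ℕ, p.Prime → ¬ p ∣ M → ¬ (p ∣ x.1 ∧ p ∣ x.2)) →
  Squarefree (val g k x) ∧ val g k x ≡ g * A [MOD g * M] ∧ IsCongruent (val g k x)

end Pool.Agent.Y675.LN
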