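import Pool.Agent.Y675.LN.Stm

/-! Project LN: the finite core. -/

set_option autoImplicit false

namespace Pool.Agent.Y675.LN

open Finset

lemma sum_inv_sq (P : Finset ℕ) (y : ℕ) (hy : 1 ≤ y) (h : ∀ p ∈ P, y < p) :
    ∑ p ∈ P, 1 / (p : ℝ) ^ 2 ≤ 1 / (y : ℝ) := by
  obtain ⟨N, hN⟩ : ∃ N : ℕ, ∀ p ∈ P, p ≤ N := by
    refine ⟨P.sup id, fun p hp => ?_⟩
    exact Finset.le_sup (f := id) hp
  have hsub : P ⊆ Ioc y (max y N) := by
    intro p hp
    rw [mem_Ioc]
    exact ⟨h p hp, le_max_of_le_right (hN p hp)⟩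
  calc ∑ p ∈ P, 1 / (p : ℝ) ^ 2 ≤ ∑ p ∈ Ioc y (max y N), 1 / (p : ℝ) ^ 2 :=
        Finset.sum_le_sum_of_subset_of_nonneg hsub (fun _ _ _ => by positivity)
    _ = ∑ p ∈ Ioc y (max y N), ((p : ℝ) ^ 2)⁻¹ := by simp
    _ ≤ (y : ℝ)⁻¹ - ((max y N : ℕ) : ℝ)⁻¹ :=
        sum_Ioc_inv_sq_le_sub (by omega) (le_max_left _ _)
    _ ≤ (y : ℝ)⁻¹ := by
        have : (0 : ℝ) ≤ ((max y N : ℕ) : ℝ)⁻¹ := by positivity
        linarith
    _ = 1 / y := by rw [one_div]

lemma sum_inv_le (P : Finset ℕ) (N : ℕ) (h : ∀ p ∈ P, 1 ≤ p ∧ p ≤ N) :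
    ∑ p ∈ P, 1 / (p : ℝ) ≤ 1 + Real.log N := by
  have hsub : P ⊆ Icc 1 N := fun p hp => mem_Icc.2 (h p hp)
  calc ∑ p ∈ P, 1 / (p : ℝ) ≤ ∑ p ∈ Icc 1 N, 1 / (p : ℝ) :=
        Finset.sum_le_sum_of_subset_of_nonneg hsub (fun _ _ _ => by positivity)
    _ = ((harmonic N : ℚ) : ℝ) := by
        rw [harmonic_eq_sum_Icc]; push_cast; simp
    _ ≤ 1 + Real.log N := harmonic_le_one_add_log N

lemma Pr_finite (k A M J : ℕ) : (Pr k A M J).Finite := by
  apply ((Set.finite_Iic (2 * (3 * k * J * M))).prod (Set.finite_Iic (J * M))).subset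
  intro x hx
  exact ⟨hx.2.1, hx.2.2.2.1⟩

/-- good pairs -/
def Gd (g k A M J : ℕ) : Set (ℕ × ℕ) :=
  {x ∈ Pr k A M J | Squarefree (val g k x) ∧ val g k x ≡ g * A [MOD g * M] ∧
    IsCongruent (val g k x)}

lemma card_union_bound {α : Type*} [DecidableEq α] (U G : Finset α) (P : Finset ℕ)
    (B : ℕ → α → Prop) [∀ p, DecidablePred (B p)]
    (h : ∀ x ∈ U, x ∈ G ∨ ∃ p ∈ P, B p x) :
    U.card ≤ G.card + ∑ p ∈ P, (U.filter (B p)).card := by
  have hsub : U ⊆ G ∪ P.biUnion (fun p => U.filter (B p)) := by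
    intro x hx
    rcases h x hx with h1 | ⟨p, hp, hB⟩
    · exact mem_union_left _ h1
    · exact mem_union_right _ (mem_biUnion.2 ⟨p, hp, mem_filter.2 ⟨hx, hB⟩⟩)
  calc U.card ≤ _ := card_le_card hsub
    _ ≤ _ := card_union_le _ _
    _ ≤ _ := by gcongr; exact card_biUnion_le

/-- number of primes dividing `g` but not `M` -/
def ng (g M : ℕ) : ℕ := (g.primeFactors.filter (fun p => ¬ p ∣ M)).card

/-- the finite core of the argument -/
theorem core (hLOW : S_LOW) (hBOX : S_BOX) (hSM : S_SMALL) (hLG : S_LARGE) (hGD : S_GOOD)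
    (c g k M A y D J : ℕ) (hc : 0 < c) (h2c : 2 ∣ c) (hk : 3 * k = c ^ 2 * g)
    (hg : Squarefree g) (hM : 0 < M) (hAM : Nat.Coprime A M)
    (hcM : ∀ p : ℕ, p.Prime → p ∣ c → p ∣ M) (hyM : ∀ p : ℕ, p.Prime → p ≤ y → p ∣ M)
    (hMk : ∀ p : ℕ, p.Prime → p ∣ M → (p ∣ 3 * k ∨ 1000 < p)) (hy : 1 ≤ y) (hD : 1 ≤ D)
    (hDJ : D ^ 2 ≤ J)
    (hineq : (16 * (ng g M : ℝ) + 20) / y + 6 ^ om M * ((8 * (ng g M : ℝ) + 10) / D +
      2 * (1 + Real.log (J * M : ℕ)) / J) ≤ 1 / 2) :
    3 * (k : ℝ) * J ^ 2 * M / (2 * 2 ^ om M) ≤ ((Gd g k A M J).ncard : ℝ) := by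
  classical
  have hg0 : 0 < g := Nat.pos_of_ne_zero (fun h => by rw [h] at hg; exact not_squarefree_zero hg)
  have hk0 : 0 < k := by
    have : 0 < 3 * k := by rw [hk]; positivity
    omega
  have hJ : 0 < J := lt_of_lt_of_le (by positivity) hDJ
  have hfin := Pr_finite k A M J
  have hGfin : (Gd g k A M J).Finite := hfin.subset (fun x hx => hx.1)
  set U : Finset (ℕ × ℕ) := hfin.toFinset with hU
  set G : Finset (ℕ × ℕ) := hGfin.toFinset with hG
  have hUc : (U.card : ℝ) = 3 * k * J ^ 2 * (S k A M).ncard := by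
    have h1 := hBOX k A M J hM
    rw [Set.ncard_eq_toFinset_card _ hfin] at h1
    rw [hU, h1]; push_cast; ring
  have hGc : ((Gd g k A M J).ncard : ℝ) = G.card := by
    rw [Set.ncard_eq_toFinset_card _ hGfin]
  -- the index sets of primes
  set P1 : Finset ℕ := g.primeFactors.filter (fun p => ¬ p ∣ M) with hP1
  set N2 : ℕ := 9 * k * J * M with hN2
  set P2 : Finset ℕ := (Icc 1 N2).filter (fun p => p.Prime ∧ ¬ p ∣ M) with hP2
  set P3 : Finset ℕ := (Icc 1 (J * M)).filter (fun p => p.Prime ∧ ¬ p ∣ M) with hP3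
  have key1 : ∀ x ∈ U, x ∈ G ∨ (∃ p ∈ P1, Dv k p x) ∨ (∃ p ∈ P2, Dv k (p ^ 2) x) ∨
      (∃ p ∈ P3, p ∣ x.1 ∧ p ∣ x.2) := by
    intro x hx
    rw [hU, Set.Finite.mem_toFinset] at hx
    by_contra hcon
    push Not at hcon
    obtain ⟨h0, h1, h2, h3⟩ := hcon
    apply h0
    rw [hG, Set.Finite.mem_toFinset]
    obtain ⟨hx1, hx2, hx3, hx4, hx5⟩ := hx
    have hKx : 3 * k * x.2 < x.1 := by
      calc 3 * k * x.2 ≤ 3 * k * (J * M) := by gcongr
        _ = 3 * k * J * M := by ring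
        _ < x.1 := hx1
    refine ⟨⟨hx1, hx2, hx3, hx4, hx5⟩, ?_⟩
    apply hGD c g k M A hc h2c hM hg hk hcM hAM x hx3 hKx hx5
    · intro p hp hpM hpg
      exact h1 p (by rw [hP1, mem_filter, Nat.mem_primeFactors]; exact ⟨⟨hp, hpg, hg0.ne'⟩, hpM⟩)
    · intro p hp hpM hDv
      refine h2 p ?_ hDv
      rw [hP2, mem_filter, mem_Icc]
      refine ⟨⟨hp.one_lt.le, ?_⟩, hp, hpM⟩
      have hpp : p ≤ p ^ 2 := Nat.le_self_pow two_ne_zero p
      have e1 : 2 * (3 * k * J * M) ≤ N2 := by rw [hN2]; nlinarith [Nat.zero_le (k * J * M)]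
      have e2 : J * M ≤ N2 := by
        rw [hN2]
        calc J * M = 1 * (J * M) := by ring
          _ ≤ (9 * k) * (J * M) := by gcongr; omega
          _ = 9 * k * J * M := by ring
      have e3 : 3 * k * x.2 ≤ 3 * k * J * M := by
        calc 3 * k * x.2 ≤ 3 * k * (J * M) := by gcongr
          _ = 3 * k * J * M := by ring
      rcases hDv with h | h | h | h
      · exact hpp.trans ((Nat.le_of_dvd (by omega) h).trans (hx2.trans e1))
      · exact hpp.trans ((Nat.le_of_dvd hx3 h).trans (hx4.trans e2))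
      · exact hpp.trans ((Nat.le_of_dvd (by omega) h).trans (by omega))
      · refine hpp.trans ((Nat.le_of_dvd (by omega) h).trans ?_)
        have : N2 = 3 * (3 * k * J * M) := by rw [hN2]; ring
        omega
    · intro p hp hpM hdd
      refine h3 p ?_ hdd.1 hdd.2
      rw [hP3, mem_filter, mem_Icc]
      exact ⟨⟨hp.one_lt.le, (Nat.le_of_dvd hx3 hdd.2).trans hx4⟩, hp, hpM⟩
  -- counting
  have hcount : (U.card : ℝ) ≤ G.card + (∑ p ∈ P1, ((U.filter (Dv k p)).card : ℝ)) +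
      (∑ p ∈ P2, ((U.filter (Dv k (p ^ 2))).card : ℝ)) +
      (∑ p ∈ P3, ((U.filter (fun x => p ∣ x.1 ∧ p ∣ x.2)).card : ℝ)) := by
    have hsub : U ⊆ G ∪ P1.biUnion (fun p => U.filter (Dv k p)) ∪
        P2.biUnion (fun p => U.filter (Dv k (p ^ 2))) ∪
        P3.biUnion (fun p => U.filter (fun x => p ∣ x.1 ∧ p ∣ x.2)) := by
      intro x hx
      rcases key1 x hx with h | ⟨p, hp, h⟩ | ⟨p, hp, h⟩ | ⟨p, hp, h⟩
      · exact mem_union_left _ (mem_union_left _ (mem_union_left _ h))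
      · exact mem_union_left _ (mem_union_left _ (mem_union_right _
          (mem_biUnion.2 ⟨p, hp, mem_filter.2 ⟨hx, h⟩⟩)))
      · exact mem_union_left _ (mem_union_right _
          (mem_biUnion.2 ⟨p, hp, mem_filter.2 ⟨hx, h⟩⟩))
      · exact mem_union_right _ (mem_biUnion.2 ⟨p, hp, mem_filter.2 ⟨hx, h⟩⟩)
    have h1 := card_le_card hsub
    have h2 : U.card ≤ G.card + (∑ p ∈ P1, (U.filter (Dv k p)).card) +
      (∑ p ∈ P2, (U.filter (Dv k (p ^ 2))).card) +
      (∑ p ∈ P3, (U.filter (fun x => p ∣ x.1 ∧ p ∣ x.2)).card) := by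
      refine h1.trans ?_
      refine (card_union_le _ _).trans ?_
      gcongr
      · refine (card_union_le _ _).trans ?_
        gcongr
        · refine (card_union_le _ _).trans ?_
          gcongr
          exact card_biUnion_le
        · exact card_biUnion_le
      · exact card_biUnion_le
    exact_mod_cast h2
  -- individual bounds
  set s : ℝ := ((S k A M).ncard : ℝ) with hs
  have hs0 : 0 ≤ s := by rw [hs]; positivity
  have hMs : (M : ℝ) ≤ 2 ^ om M * s := by
    have := hLOW k A M hM hMk hAM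
    rw [hs]; exact_mod_cast this
  have hfil : ∀ (Q : ℕ × ℕ → Prop) [DecidablePred Q],
      (U.filter Q).card = {x ∈ Pr k A M J | Q x}.ncard := by
    intro Q _
    rw [← Set.ncard_coe_finset]
    congr 1
    ext x
    simp [hU]
  have hcop : ∀ p : ℕ, p.Prime → ¬ p ∣ M → Nat.Coprime M p := by
    intro p hp h
    exact ((Nat.Prime.coprime_iff_not_dvd hp).2 h).symm
  have small1 : ∀ d : ℕ, 0 < d → d ≤ J → Nat.Coprime M d →
      ((U.filter (Dv k d)).card : ℝ) ≤ 48 * k * J ^ 2 * s * (1 / d) := by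
    intro d hd hdJ hcp
    have h1 := (hSM k A M J d hk0 hM hd hdJ hcp).1
    rw [← hfil (Dv k d)] at h1
    have h2 : (d : ℝ) * ((U.filter (Dv k d)).card : ℝ) ≤ 48 * k * J ^ 2 * s := by
      rw [hs]; exact_mod_cast h1
    have hd' : (0 : ℝ) < d := by exact_mod_cast hd
    rw [mul_one_div, le_div_iff₀ hd']
    linarith
  have large1 : ∀ d : ℕ, 0 < d → Nat.Coprime M d →
      ((U.filter (Dv k d)).card : ℝ) ≤ 24 * k * J ^ 2 * M * 3 ^ om M * (1 / d) := by
    intro d hd hcp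
    have h1 := (hLG k A M J d hk0 hM hJ hd hcp hAM).1
    rw [← hfil (Dv k d)] at h1
    have h2 : (d : ℝ) * ((U.filter (Dv k d)).card : ℝ) ≤ 24 * k * J ^ 2 * M * 3 ^ om M := by
      exact_mod_cast h1
    have hd' : (0 : ℝ) < d := by exact_mod_cast hd
    rw [mul_one_div, le_div_iff₀ hd']
    linarith
  have small2 : ∀ d : ℕ, 0 < d → d ≤ J → Nat.Coprime M d →
      ((U.filter (fun x => d ∣ x.1 ∧ d ∣ x.2)).card : ℝ) ≤
        12 * k * J ^ 2 * s * (1 / (d : ℝ) ^ 2) := by
    intro d hd hdJ hcp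
    have h1 := (hSM k A M J d hk0 hM hd hdJ hcp).2
    rw [← hfil (fun x => d ∣ x.1 ∧ d ∣ x.2)] at h1
    have h2 : (d : ℝ) ^ 2 * ((U.filter (fun x => d ∣ x.1 ∧ d ∣ x.2)).card : ℝ) ≤
        12 * k * J ^ 2 * s := by
      rw [hs]; exact_mod_cast h1
    have hd' : (0 : ℝ) < (d : ℝ) ^ 2 := by positivity
    rw [mul_one_div, le_div_iff₀ hd']
    linarith
  have large2 : ∀ d : ℕ, 0 < d → Nat.Coprime M d →
      ((U.filter (fun x => d ∣ x.1 ∧ d ∣ x.2)).card : ℝ) ≤
        6 * k * J ^ 2 * M * 3 ^ om M * (1 / (d : ℝ) ^ 2) +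
          6 * k * J * M * 3 ^ om M * (1 / (d : ℝ)) := by
    intro d hd hcp
    have h1 := (hLG k A M J d hk0 hM hJ hd hcp hAM).2
    rw [← hfil (fun x => d ∣ x.1 ∧ d ∣ x.2)] at h1
    have h2 : (d : ℝ) ^ 2 * ((U.filter (fun x => d ∣ x.1 ∧ d ∣ x.2)).card : ℝ) ≤
        6 * k * J * M * 3 ^ om M * (J + d) := by
      exact_mod_cast h1
    have hd0 : (0 : ℝ) < d := by exact_mod_cast hd
    have hd' : (0 : ℝ) < (d : ℝ) ^ 2 := by positivity
    have h3 : ((U.filter (fun x => d ∣ x.1 ∧ d ∣ x.2)).card : ℝ) ≤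
        6 * k * J * M * 3 ^ om M * (J + d) / (d : ℝ) ^ 2 := by
      rw [le_div_iff₀ hd']; linarith
    refine h3.trans (le_of_eq ?_)
    field_simp
  have hyp : ∀ p : ℕ, p.Prime → ¬ p ∣ M → y < p := by
    intro p hp h
    by_contra hcon
    exact h (hyM p hp (by omega))
  have hy' : (0 : ℝ) < y := by exact_mod_cast hy
  have hD' : (0 : ℝ) < D := by exact_mod_cast hD
  have hDJ1 : D ≤ J := le_trans (Nat.le_self_pow two_ne_zero D) hDJ
  set Cs : ℝ := k * J ^ 2 * s with hCs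
  set Cl : ℝ := k * J ^ 2 * M * 3 ^ om M with hCl
  have hCs0 : 0 ≤ Cs := by rw [hCs]; positivity
  have hCl0 : 0 ≤ Cl := by rw [hCl]; positivity
  have b1 : (∑ p ∈ P1, ((U.filter (Dv k p)).card : ℝ)) ≤
      (ng g M : ℝ) * (48 * Cs / y + 24 * Cl / D) := by
    have hle : ∀ p ∈ P1, ((U.filter (Dv k p)).card : ℝ) ≤ 48 * Cs / y + 24 * Cl / D := by
      intro p hp
      rw [hP1, mem_filter, Nat.mem_primeFactors] at hp
      have hpp := hp.1.1
      have hp0 : (0 : ℝ) < p := by exact_mod_cast hpp.pos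
      rcases le_or_gt p D with h | h
      · have h1 := small1 p hpp.pos (h.trans hDJ1) (hcop p hpp hp.2)
        have h2 : 1 / (p : ℝ) ≤ 1 / y := by
          apply one_div_le_one_div_of_le hy'
          exact_mod_cast (hyp p hpp hp.2).le
        calc _ ≤ _ := h1
          _ = 48 * Cs * (1 / p) := by rw [hCs]; ring
          _ ≤ 48 * Cs * (1 / y) := by gcongr
          _ = 48 * Cs / y := by ring
          _ ≤ _ := by
            have : 0 ≤ 24 * Cl / D := by positivity
            linarith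
      · have h1 := large1 p hpp.pos (hcop p hpp hp.2)
        have h2 : 1 / (p : ℝ) ≤ 1 / D := by
          apply one_div_le_one_div_of_le hD'
          exact_mod_cast h.le
        calc _ ≤ _ := h1
          _ = 24 * Cl * (1 / p) := by rw [hCl]; ring
          _ ≤ 24 * Cl * (1 / D) := by gcongr
          _ = 24 * Cl / D := by ring
          _ ≤ _ := by
            have : 0 ≤ 48 * Cs / y := by positivity
            linarith
    calc _ ≤ ∑ _p ∈ P1, (48 * Cs / y + 24 * Cl / D) := Finset.sum_le_sum hle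
      _ = (P1.card : ℝ) * (48 * Cs / y + 24 * Cl / D) := by rw [sum_const, nsmul_eq_mul]
      _ ≤ _ := by
        rw [hP1, ng]
  have b2 : (∑ p ∈ P2, ((U.filter (Dv k (p ^ 2))).card : ℝ)) ≤ 48 * Cs / y + 24 * Cl / D := by
    rw [← Finset.sum_filter_add_sum_filter_not P2 (fun p => p ≤ D)]
    apply add_le_add
    · calc _ ≤ ∑ p ∈ P2.filter (fun p => p ≤ D), 48 * Cs * (1 / (p : ℝ) ^ 2) := by
            apply Finset.sum_le_sum
            intro p hp
            rw [mem_filter, hP2, mem_filter] at hp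
            have hpp := hp.1.2.1
            have h1 := small1 (p ^ 2) (by have := hpp.pos; positivity)
              ((Nat.pow_le_pow_left hp.2 2).trans hDJ)
              (Nat.Coprime.pow_right 2 (hcop p hpp hp.1.2.2))
            calc _ ≤ _ := h1
              _ = _ := by rw [hCs]; push_cast; ring
        _ = 48 * Cs * ∑ p ∈ P2.filter (fun p => p ≤ D), (1 / (p : ℝ) ^ 2) := by
            rw [Finset.mul_sum]
        _ ≤ 48 * Cs * (1 / y) := by
            gcongr
            apply sum_inv_sq _ _ hy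
            intro p hp
            rw [mem_filter, hP2, mem_filter] at hp
            exact hyp p hp.1.2.1 hp.1.2.2
        _ = 48 * Cs / y := by ring
    · calc _ ≤ ∑ p ∈ P2.filter (fun p => ¬ p ≤ D), 24 * Cl * (1 / (p : ℝ) ^ 2) := by
            apply Finset.sum_le_sum
            intro p hp
            rw [mem_filter, hP2, mem_filter] at hp
            have hpp := hp.1.2.1
            have h1 := large1 (p ^ 2) (by have := hpp.pos; positivity)
              (Nat.Coprime.pow_right 2 (hcop p hpp hp.1.2.2))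
            calc _ ≤ _ := h1
              _ = _ := by rw [hCl]; push_cast; ring
        _ = 24 * Cl * ∑ p ∈ P2.filter (fun p => ¬ p ≤ D), (1 / (p : ℝ) ^ 2) := by
            rw [Finset.mul_sum]
        _ ≤ 24 * Cl * (1 / D) := by
            gcongr
            apply sum_inv_sq _ _ hD
            intro p hp
            rw [mem_filter] at hp
            omega
        _ = 24 * Cl / D := by ring
  have b3 : (∑ p ∈ P3, ((U.filter (fun x => p ∣ x.1 ∧ p ∣ x.2)).card : ℝ)) ≤
      12 * Cs / y + (6 * Cl / D + 6 * Cl * (1 + Real.log (J * M : ℕ)) / J) := by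
    rw [← Finset.sum_filter_add_sum_filter_not P3 (fun p => p ≤ D)]
    apply add_le_add
    · calc _ ≤ ∑ p ∈ P3.filter (fun p => p ≤ D), 12 * Cs * (1 / (p : ℝ) ^ 2) := by
            apply Finset.sum_le_sum
            intro p hp
            rw [mem_filter, hP3, mem_filter] at hp
            have hpp := hp.1.2.1
            have h1 := small2 p hpp.pos (hp.2.trans hDJ1) (hcop p hpp hp.1.2.2)
            calc _ ≤ _ := h1
              _ = _ := by rw [hCs]; ring
        _ = 12 * Cs * ∑ p ∈ P3.filter (fun p => p ≤ D), (1 / (p : ℝ) ^ 2) := by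
            rw [Finset.mul_sum]
        _ ≤ 12 * Cs * (1 / y) := by
            gcongr
            apply sum_inv_sq _ _ hy
            intro p hp
            rw [mem_filter, hP3, mem_filter] at hp
            exact hyp p hp.1.2.1 hp.1.2.2
        _ = 12 * Cs / y := by ring
    · have hJ' : (0 : ℝ) < J := by exact_mod_cast hJ
      calc _ ≤ ∑ p ∈ P3.filter (fun p => ¬ p ≤ D), (6 * Cl * (1 / (p : ℝ) ^ 2) +
              6 * Cl / J * (1 / (p : ℝ))) := by
            apply Finset.sum_le_sum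
            intro p hp
            rw [mem_filter, hP3, mem_filter] at hp
            have hpp := hp.1.2.1
            have h1 := large2 p hpp.pos (hcop p hpp hp.1.2.2)
            have hp0 : (0 : ℝ) < p := by exact_mod_cast hpp.pos
            calc _ ≤ _ := h1
              _ = _ := by rw [hCl]; field_simp
        _ = 6 * Cl * ∑ p ∈ P3.filter (fun p => ¬ p ≤ D), (1 / (p : ℝ) ^ 2) +
            6 * Cl / J * ∑ p ∈ P3.filter (fun p => ¬ p ≤ D), (1 / (p : ℝ)) := by
            rw [Finset.sum_add_distrib, Finset.mul_sum, Finset.mul_sum]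
        _ ≤ 6 * Cl * (1 / D) + 6 * Cl / J * (1 + Real.log (J * M : ℕ)) := by
            gcongr
            · apply sum_inv_sq _ _ hD
              intro p hp
              rw [mem_filter] at hp
              omega
            · apply sum_inv_le
              intro p hp
              rw [mem_filter, hP3, mem_filter, mem_Icc] at hp
              exact hp.1.1
        _ = _ := by ring
  -- conclusion
  have hlog0 : 0 ≤ 1 + Real.log (J * M : ℕ) := by
    have : 0 ≤ Real.log ((J * M : ℕ) : ℝ) := Real.log_natCast_nonneg _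
    linarith
  have hJ' : (0 : ℝ) < J := by exact_mod_cast hJ
  have hClCs : Cl ≤ 6 ^ om M * Cs := by
    have h6 : (6 : ℝ) ^ om M = 2 ^ om M * 3 ^ om M := by
      rw [← mul_pow]; norm_num
    calc Cl = k * J ^ 2 * 3 ^ om M * M := by rw [hCl]; ring
      _ ≤ k * J ^ 2 * 3 ^ om M * (2 ^ om M * s) := by gcongr
      _ = 6 ^ om M * Cs := by rw [h6, hCs]; ring
  have htot : (U.card : ℝ) ≤ G.card + 3 * Cs * ((16 * (ng g M : ℝ) + 20) / y +
      6 ^ om M * ((8 * (ng g M : ℝ) + 10) / D + 2 * (1 + Real.log (J * M : ℕ)) / J)) := by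
    calc (U.card : ℝ) ≤ G.card + (ng g M : ℝ) * (48 * Cs / y + 24 * Cl / D) +
          (48 * Cs / y + 24 * Cl / D) + (12 * Cs / y + (6 * Cl / D +
            6 * Cl * (1 + Real.log (J * M : ℕ)) / J)) := by linarith
      _ = G.card + 3 * Cs * ((16 * (ng g M : ℝ) + 20) / y) + 3 * Cl * ((8 * (ng g M : ℝ) + 10) / D +
          2 * (1 + Real.log (J * M : ℕ)) / J) := by ring
      _ ≤ G.card + 3 * Cs * ((16 * (ng g M : ℝ) + 20) / y) + 3 * (6 ^ om M * Cs) *
          ((8 * (ng g M : ℝ) + 10) / D + 2 * (1 + Real.log (J * M : ℕ)) / J) := by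
          gcongr
      _ = _ := by ring
  have h4 : 3 * Cs * ((16 * (ng g M : ℝ) + 20) / y +
      6 ^ om M * ((8 * (ng g M : ℝ) + 10) / D + 2 * (1 + Real.log (J * M : ℕ)) / J)) ≤
      3 * Cs * (1 / 2) := by
    gcongr
  have hU3 : (U.card : ℝ) = 3 * Cs := by rw [hUc, hCs]; ring
  have h5 : 3 * Cs / 2 ≤ G.card := by linarith
  rw [hGc]
  refine le_trans ?_ h5
  rw [div_le_iff₀ (by positivity)]
  calc 3 * (k : ℝ) * J ^ 2 * M ≤ 3 * (k : ℝ) * J ^ 2 * (2 ^ om M * s) := by gcongr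
    _ = 3 * Cs / 2 * (2 * 2 ^ om M) := by rw [hCs]; ring

end Pool.Agent.Y675.LN
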