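import Pool.Agent.Y675.LN.Prep

/-! Project LN: final assembly. -/

set_option autoImplicit false

namespace Pool.Agent.Y675.LN

open Finset Filter

lemma ev_log_le (c d s : ℝ) (hs : 0 < s) : ∀ᶠ X : ℝ in atTop, c * Real.log X + d ≤ X ^ s := by
  have h1 : (fun X : ℝ => c * Real.log X) =o[atTop] (fun X : ℝ => X ^ s) :=
    (isLittleO_log_rpow_atTop hs).const_mul_left c
  have h2 : (fun _ : ℝ => d) =o[atTop] (fun X : ℝ => X ^ s) :=
    Asymptotics.isLittleO_const_left.2 (Or.inr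
      (tendsto_norm_atTop_atTop.comp (tendsto_rpow_atTop hs)))
  have h3 := (h1.add h2).bound (show (0:ℝ) < 1 by norm_num)
  filter_upwards [h3, eventually_ge_atTop (1:ℝ)] with X hX hX1
  have h4 : ‖X ^ s‖ = X ^ s := by
    rw [Real.norm_eq_abs, abs_of_nonneg (by positivity)]
  rw [h4, one_mul] at hX
  exact (le_abs_self _).trans hX

lemma exists_c : ∃ c : ℕ, 0 < c ∧ 2 ∣ c ∧ 3 ∣ c ∧ (∀ p : ℕ, p.Prime → p ∣ c → p ≤ 1000) ∧
    (∀ p : ℕ, p.Prime → p ≤ 1000 → p ∣ c) := by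
  refine ⟨Nat.factorial 1000, Nat.factorial_pos _, Nat.dvd_factorial (by norm_num) (by norm_num),
    Nat.dvd_factorial (by norm_num) (by norm_num), ?_, ?_⟩
  · intro p hp h
    exact (Nat.Prime.dvd_factorial hp).1 h
  · intro p hp h
    exact (Nat.Prime.dvd_factorial hp).2 h

theorem main_aux (hLOW : S_LOW) (hBOX : S_BOX) (hSM : S_SMALL) (hLG : S_LARGE) (hGD : S_GOOD)
    (ε : ℝ) (hε : 0 < ε) (hε1 : ε ≤ 1) :
    ∃ X₀ : ℝ, ∀ X : ℝ, X₀ ≤ X → ∀ q : ℕ, 1 ≤ q → (q : ℝ) ^ (4 + ε) ≤ X → ∀ a : ℕ,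
      Squarefree (Nat.gcd a q) → X ^ (1 / 2 - ε) / q ≤
        ({n : ℕ | (n : ℝ) ≤ X ∧ Squarefree n ∧ n ≡ a [MOD q] ∧ IsCongruent n}.ncard : ℝ) := by
  set θ : ℝ := ε / 1200 with hθ
  have hθ0 : 0 < θ := by positivity
  obtain ⟨C0, hC0, hdiv0⟩ := Pool.Agent.H510R2.divisor_bound θ hθ0
  obtain ⟨C, hC1, hC⟩ : ∃ C : ℝ, 1 ≤ C ∧ ∀ n : ℕ, 1 ≤ n → (n.divisors.card : ℝ) ≤
      C * (n : ℝ) ^ θ := by
    refine ⟨max 1 C0, le_max_left _ _, fun n hn => (hdiv0 n hn).trans ?_⟩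
    gcongr
    exact le_max_right _ _
  have hCpos : 0 < C := by linarith
  obtain ⟨c, hc0, h2c, h3c, hpc, hcp⟩ := exists_c
  have hcR1 : (1 : ℝ) ≤ c := by exact_mod_cast hc0
  set δ : ℝ := ε / 400 with hδ
  have hδ0 : 0 < δ := by positivity
  have ev2 : ∀ᶠ X : ℝ in atTop, (2000 + 320) / δ ≤ Real.log X :=
    Real.tendsto_log_atTop.eventually_ge_atTop _
  have ev3 : ∀ᶠ X : ℝ in atTop, 4 * (c : ℝ) ^ 2 ≤ X ^ (ε / 50) :=
    (tendsto_rpow_atTop (by positivity)).eventually_ge_atTop _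
  have ev4 : ∀ᶠ X : ℝ in atTop, (16 * C ^ 3 * 8) * Real.log X + (16 * C ^ 3 * 10) ≤
      X ^ (ε / 100) := ev_log_le _ _ _ (by positivity)
  have ev5 : ∀ᶠ X : ℝ in atTop, (16 * C ^ 3) * Real.log X + (16 * C ^ 3) ≤
      X ^ (9 * ε / 400) := ev_log_le _ _ _ (by positivity)
  have ev6 : ∀ᶠ X : ℝ in atTop, 256 / δ ≤ Real.log (δ * Real.log X / 2) := by
    have h1 : Tendsto (fun X : ℝ => δ * Real.log X / 2) atTop atTop :=
      (Real.tendsto_log_atTop.const_mul_atTop hδ0).atTop_div_const (by norm_num)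
    exact (Real.tendsto_log_atTop.comp h1).eventually_ge_atTop _
  have ev7 : ∀ᶠ X : ℝ in atTop, 32 * (c : ℝ) ^ 4 * C ^ 5 ≤ X ^ (ε / 2) :=
    (tendsto_rpow_atTop (by positivity)).eventually_ge_atTop _
  obtain ⟨X₀, hX₀⟩ := eventually_atTop.1 (ev2.and (ev3.and (ev4.and (ev5.and (ev6.and
    (ev7.and (eventually_ge_atTop (16 : ℝ))))))))
  refine ⟨X₀, fun X hX q hq hqX a hsf => ?_⟩
  obtain ⟨e2, e3, e4, e5, e6, e7, hX16⟩ := hX₀ X hX
  have hX1 : (1 : ℝ) ≤ X := by linarith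
  have hX0 : (0 : ℝ) < X := by linarith
  set L : ℝ := Real.log X with hL
  have hL0 : 0 < L := by
    have : 0 < (2000 + 320) / δ := by positivity
    linarith
  have hδL : 2320 ≤ δ * L := by
    rw [div_le_iff₀ hδ0] at e2
    linarith
  set g : ℕ := Nat.gcd a q with hg
  have hg0 : 0 < g := Nat.gcd_pos_of_pos_right a hq
  -- y
  set y : ℕ := ⌊δ * L⌋₊ with hy
  have hyle : (y : ℝ) ≤ δ * L := Nat.floor_le (by positivity)
  have hylt : δ * L < y + 1 := Nat.lt_floor_add_one _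
  have hyge : δ * L / 2 ≤ y := by linarith
  have hy1000 : 1000 ≤ y := by
    have : (1000 : ℝ) ≤ y := by linarith
    exact_mod_cast this
  obtain ⟨M, A, hM, hAM, hyM, hgM, hgA, hqgM⟩ := construct q a y hq
  rw [← hg] at hgM hgA hqgM
  -- k
  obtain ⟨c', hc'⟩ := h3c
  set k : ℕ := 3 * c' ^ 2 * g with hk
  have hk3 : 3 * k = c ^ 2 * g := by rw [hk, hc']; ring
  have hcM : ∀ p : ℕ, p.Prime → p ∣ c → p ∣ M := by
    intro p hp h
    exact hyM p hp ((hpc p hp h).trans hy1000)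
  have hMk : ∀ p : ℕ, p.Prime → p ∣ M → (p ∣ 3 * k ∨ 1000 < p) := by
    intro p hp _
    rcases le_or_gt p 1000 with h | h
    · left
      rw [hk3]
      exact ((hcp p hp h).trans (Dvd.intro_left _ (by ring : c * c = c ^ 2))).mul_right g
    · right; exact h
  -- sizes
  have hqpos : (0 : ℝ) < q := by exact_mod_cast hq
  have hq1R : (1 : ℝ) ≤ q := by exact_mod_cast hq
  have h4y : ((4 : ℝ)) ^ y ≤ X ^ (ε / 200) := by
    have h1 : (4 : ℝ) ^ y = Real.exp (Real.log 4 * y) := by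
      rw [Real.exp_mul, Real.exp_log (by norm_num), Real.rpow_natCast]
    rw [h1, Real.rpow_def_of_pos hX0, Real.exp_le_exp, ← hL]
    have hlog4 : Real.log 4 ≤ 2 := by
      have h2 : Real.log 4 = 2 * Real.log 2 := by
        rw [show (4 : ℝ) = 2 ^ 2 by norm_num, Real.log_pow]; norm_num
      have := Real.log_two_lt_d9
      rw [h2]; linarith
    calc Real.log 4 * y ≤ 2 * (δ * L) := by gcongr
      _ = L * (ε / 200) := by rw [hδ]; ring
  have hgMR : (g : ℝ) * M ≤ q * X ^ (ε / 200) := by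
    have h1 : (g : ℝ) * M ≤ q * 4 ^ y := by exact_mod_cast hgM
    refine h1.trans ?_
    gcongr
  have hqX' : (q : ℝ) ≤ X ^ (1 / 4 - ε / 20) := by
    have h1 : (q : ℝ) = ((q : ℝ) ^ (4 + ε)) ^ (1 / (4 + ε)) := by
      rw [← Real.rpow_mul hqpos.le, mul_one_div_cancel (by positivity), Real.rpow_one]
    have h2 : (q : ℝ) ≤ X ^ (1 / (4 + ε)) := by
      rw [h1]
      exact Real.rpow_le_rpow (by positivity) hqX (by positivity)
    refine h2.trans (Real.rpow_le_rpow_of_exponent_le hX1 ?_)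
    rw [div_le_iff₀ (by positivity)]
    nlinarith
  have hgMX : (g : ℝ) * M ≤ X ^ (1 / 4 - 9 * ε / 200) := by
    calc (g : ℝ) * M ≤ q * X ^ (ε / 200) := hgMR
      _ ≤ X ^ (1 / 4 - ε / 20) * X ^ (ε / 200) := by gcongr
      _ = X ^ (1 / 4 - 9 * ε / 200) := by rw [← Real.rpow_add hX0]; congr 1; ring
  have hgpos : (0 : ℝ) < g := by exact_mod_cast hg0
  have hg1R : (1 : ℝ) ≤ g := by exact_mod_cast hg0
  have hMpos : (0 : ℝ) < M := by exact_mod_cast hM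
  have hM1R : (1 : ℝ) ≤ M := by exact_mod_cast hM
  have hX4 : X ^ (1 / 4 - 9 * ε / 200) ≤ X := by
    calc X ^ (1 / 4 - 9 * ε / 200) ≤ X ^ (1 : ℝ) := by
          apply Real.rpow_le_rpow_of_exponent_le hX1; linarith
      _ = X := Real.rpow_one X
  have hMX : (M : ℝ) ≤ X := by
    calc (M : ℝ) = 1 * M := by ring
      _ ≤ g * M := by gcongr
      _ ≤ X := hgMX.trans hX4
  have hgX : (g : ℝ) ≤ X := by
    calc (g : ℝ) = g * 1 := by ring
      _ ≤ g * M := by gcongr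
      _ ≤ X := hgMX.trans hX4
  -- J
  set Y : ℝ := X ^ (1 / 4 : ℝ) / (2 * (c : ℝ) ^ 2 * (g * M)) with hY
  have hden : 0 < 2 * (c : ℝ) ^ 2 * (g * M) := by positivity
  have hYge : 2 * X ^ (ε / 40) ≤ Y := by
    rw [hY, le_div_iff₀ hden]
    calc 2 * X ^ (ε / 40) * (2 * (c : ℝ) ^ 2 * (g * M))
        = (4 * (c : ℝ) ^ 2) * X ^ (ε / 40) * (g * M) := by ring
      _ ≤ X ^ (ε / 50) * X ^ (ε / 40) * X ^ (1 / 4 - 9 * ε / 200) := by gcongr
      _ = X ^ (1 / 4 : ℝ) := by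
          rw [← Real.rpow_add hX0, ← Real.rpow_add hX0]; congr 1; ring
  have hX40 : 1 ≤ X ^ (ε / 40) := Real.one_le_rpow hX1 (by positivity)
  set J : ℕ := ⌊Y⌋₊ with hJ
  have hJle : (J : ℝ) ≤ Y := Nat.floor_le (by linarith)
  have hJlt : Y < J + 1 := Nat.lt_floor_add_one _
  have hJge : Y / 2 ≤ J := by linarith
  have hJX : X ^ (ε / 40) ≤ J := by linarith
  have hJ1 : 1 ≤ J := by
    have : (1 : ℝ) ≤ J := hX40.trans hJX
    exact_mod_cast this
  set D : ℕ := Nat.sqrt J with hD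
  have hD1 : 1 ≤ D := by
    rw [hD, Nat.le_sqrt]; omega
  have hDJ : D ^ 2 ≤ J := Nat.sqrt_le' J
  have hDlt : J < (D + 1) ^ 2 := Nat.lt_succ_sqrt' J
  have hDX : X ^ (ε / 80) / 2 ≤ D := by
    have h1 : (J : ℝ) < ((D : ℝ) + 1) ^ 2 := by exact_mod_cast hDlt
    have h2 : (X ^ (ε / 80)) ^ 2 = X ^ (ε / 40) := by
      rw [← Real.rpow_natCast, ← Real.rpow_mul hX0.le]; congr 1; push_cast; ring
    have h3 : X ^ (ε / 80) < (D : ℝ) + 1 := by
      by_contra hcon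
      push Not at hcon
      have : ((D : ℝ) + 1) ^ 2 ≤ (X ^ (ε / 80)) ^ 2 := by gcongr
      linarith
    have h4 : (1 : ℝ) ≤ D := by exact_mod_cast hD1
    linarith
  -- omega bounds
  have hτM : ((M.divisors.card : ℕ) : ℝ) ≤ C * X ^ θ := by
    refine (hC M hM).trans ?_
    gcongr
  have h2w : (2 : ℝ) ^ om M ≤ C * X ^ θ := by
    have h1 : ((2 : ℝ)) ^ om M ≤ (M.divisors.card : ℝ) := by
      exact_mod_cast two_pow_om hM.ne'
    exact h1.trans hτM
  have h6w : (6 : ℝ) ^ om M ≤ C ^ 3 * X ^ (ε / 400) := by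
    calc (6 : ℝ) ^ om M ≤ 8 ^ om M := by gcongr; norm_num
      _ = ((2 : ℝ) ^ om M) ^ 3 := by rw [← pow_mul, mul_comm, pow_mul]; norm_num
      _ ≤ (C * X ^ θ) ^ 3 := by gcongr
      _ = C ^ 3 * X ^ (ε / 400) := by
          rw [mul_pow, ← Real.rpow_natCast (X ^ θ), ← Real.rpow_mul hX0.le]
          congr 2
          rw [hθ]; push_cast; ring
  have hngL : (ng g M : ℝ) * Real.log y ≤ L := by
    have h1 := ng_bound g M y hg0.ne' hyM
    have h2 : ((y : ℝ)) ^ ng g M ≤ X := by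
      have : ((y : ℝ)) ^ ng g M ≤ g := by exact_mod_cast h1
      exact this.trans hgX
    have hy0 : (0 : ℝ) < y := by
      have : (1000 : ℝ) ≤ y := by exact_mod_cast hy1000
      linarith
    have h3 := Real.log_le_log (by positivity) h2
    rwa [Real.log_pow] at h3
  have hlogy : 256 / δ ≤ Real.log y := by
    refine e6.trans (Real.log_le_log ?_ hyge)
    positivity
  have hlogy1 : 1 ≤ Real.log y := by
    have h1 : (1000 : ℝ) ≤ y := by exact_mod_cast hy1000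
    have h2 : Real.exp 1 ≤ y := by
      have := Real.exp_one_lt_d9
      linarith
    rw [Real.le_log_iff_exp_le (by linarith)]
    exact h2
  have hngL' : (ng g M : ℝ) ≤ L := by
    have h0 : (0 : ℝ) ≤ ng g M := by positivity
    nlinarith
  have hypos : (0 : ℝ) < y := by
    have : (1000 : ℝ) ≤ y := by exact_mod_cast hy1000
    linarith
  have c1 : (16 * (ng g M : ℝ) + 20) / y ≤ 1 / 4 := by
    rw [div_le_iff₀ hypos]
    have h1 : (ng g M : ℝ) * (256 / δ) ≤ L := by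
      refine le_trans ?_ hngL
      gcongr
    have h2 : (ng g M : ℝ) * 256 ≤ δ * L := by
      have h3 : (ng g M : ℝ) * (256 / δ) * δ ≤ L * δ := by gcongr
      have h4 : (ng g M : ℝ) * (256 / δ) * δ = (ng g M : ℝ) * 256 := by field_simp
      linarith
    linarith
  have hJMX : ((J * M : ℕ) : ℝ) ≤ X := by
    push_cast
    calc (J : ℝ) * M ≤ Y * M := by gcongr
      _ = X ^ (1 / 4 : ℝ) / (2 * (c : ℝ) ^ 2 * g) := by rw [hY]; field_simp
      _ ≤ X ^ (1 / 4 : ℝ) / 1 := by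
          gcongr
          have : (1 : ℝ) ≤ (c : ℝ) ^ 2 * g := one_le_mul_of_one_le_of_one_le (one_le_pow₀ hcR1) hg1R
          linarith
      _ ≤ X ^ (1 : ℝ) := by
          rw [div_one]
          apply Real.rpow_le_rpow_of_exponent_le hX1; norm_num
      _ = X := Real.rpow_one X
  have hlogJM : Real.log (J * M : ℕ) ≤ L := by
    apply Real.log_le_log _ hJMX
    have : 0 < J * M := by positivity
    exact_mod_cast this
  have hDpos : (0 : ℝ) < D := by exact_mod_cast hD1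
  have hJpos : (0 : ℝ) < J := by exact_mod_cast hJ1
  have c2 : (6 : ℝ) ^ om M * ((8 * (ng g M : ℝ) + 10) / D) ≤ 1 / 8 := by
    have h80 : 0 < X ^ (ε / 80) := by positivity
    calc (6 : ℝ) ^ om M * ((8 * (ng g M : ℝ) + 10) / D)
        ≤ (C ^ 3 * X ^ (ε / 400)) * ((8 * L + 10) / (X ^ (ε / 80) / 2)) := by
          gcongr
      _ = ((16 * C ^ 3 * 8) * L + (16 * C ^ 3 * 10)) * X ^ (ε / 400) / X ^ (ε / 80) / 8 := by
          field_simp; ring
      _ ≤ X ^ (ε / 100) * X ^ (ε / 400) / X ^ (ε / 80) / 8 := by gcongr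
      _ = 1 / 8 := by
          rw [← Real.rpow_add hX0, ← Real.rpow_sub hX0]
          rw [show ε / 100 + ε / 400 - ε / 80 = 0 by ring, Real.rpow_zero]
  have c3 : (6 : ℝ) ^ om M * (2 * (1 + Real.log (J * M : ℕ)) / J) ≤ 1 / 8 := by
    calc (6 : ℝ) ^ om M * (2 * (1 + Real.log (J * M : ℕ)) / J)
        ≤ (C ^ 3 * X ^ (ε / 400)) * (2 * (1 + L) / X ^ (ε / 40)) := by
          have : 0 ≤ 1 + Real.log (J * M : ℕ) := by
            have : 0 ≤ Real.log ((J * M : ℕ) : ℝ) := Real.log_natCast_nonneg _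
            linarith
          gcongr
      _ = ((16 * C ^ 3) * L + (16 * C ^ 3)) * X ^ (ε / 400) / X ^ (ε / 40) / 8 := by
          field_simp; ring
      _ ≤ X ^ (9 * ε / 400) * X ^ (ε / 400) / X ^ (ε / 40) / 8 := by gcongr
      _ = 1 / 8 := by
          rw [← Real.rpow_add hX0, ← Real.rpow_sub hX0]
          rw [show 9 * ε / 400 + ε / 400 - ε / 40 = 0 by ring, Real.rpow_zero]
  have hineq : (16 * (ng g M : ℝ) + 20) / y + 6 ^ om M * ((8 * (ng g M : ℝ) + 10) / D +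
      2 * (1 + Real.log (J * M : ℕ)) / J) ≤ 1 / 2 := by
    rw [mul_add]; linarith
  have hcore := core hLOW hBOX hSM hLG hGD c g k M A y D J hc0 h2c hk3 hsf hM hAM hcM hyM hMk
    (by omega) hD1 hDJ hineq
  -- from pairs to numbers
  set N : ℕ := 8 * c ^ 6 * (g * M * J) ^ 4 with hN
  have hNX : (N : ℝ) ≤ X := by
    have h1 : (g : ℝ) * M * J ≤ X ^ (1 / 4 : ℝ) / (2 * (c : ℝ) ^ 2) := by
      calc (g : ℝ) * M * J ≤ g * M * Y := by gcongr
        _ = _ := by rw [hY]; field_simp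
    rw [hN]; push_cast
    calc 8 * (c : ℝ) ^ 6 * (g * M * J) ^ 4
        ≤ 8 * (c : ℝ) ^ 6 * (X ^ (1 / 4 : ℝ) / (2 * (c : ℝ) ^ 2)) ^ 4 := by gcongr
      _ = (X ^ (1 / 4 : ℝ)) ^ 4 / (2 * (c : ℝ) ^ 2) := by field_simp; ring
      _ = X / (2 * (c : ℝ) ^ 2) := by
          rw [← Real.rpow_natCast, ← Real.rpow_mul hX0.le]; norm_num
      _ ≤ X / 1 := by
          gcongr
          have : (1 : ℝ) ≤ (c : ℝ) ^ 2 := one_le_pow₀ hcR1
          linarith
      _ = X := by rw [div_one]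
  set T : ℕ := ⌊C * X ^ θ⌋₊ with hT
  have hTle : (T : ℝ) ≤ C * X ^ θ := Nat.floor_le (by positivity)
  have himg := card_le_image g k A M J N T
    (fun x hx => val_le c g k A M J hk3 x hx)
    (fun n hn hnN => by
      apply Nat.le_floor
      refine (hC n hn).trans ?_
      have : (n : ℝ) ≤ X := le_trans (by exact_mod_cast hnN) hNX
      gcongr)
  set Q : Set ℕ := {n : ℕ | (n : ℝ) ≤ X ∧ Squarefree n ∧ n ≡ a [MOD q] ∧ IsCongruent n} with hQ
  have hQfin : Q.Finite := by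
    apply (Set.finite_Iic ⌊X⌋₊).subset
    intro n hn
    exact Nat.le_floor hn.1
  have hsubQ : {n : ℕ | n ≤ N ∧ Squarefree n ∧ n ≡ g * A [MOD g * M] ∧ IsCongruent n} ⊆ Q := by
    intro n hn
    obtain ⟨h1, h2, h3, h4⟩ := hn
    exact ⟨le_trans (by exact_mod_cast h1) hNX, h2, (h3.of_dvd hqgM).trans hgA, h4⟩
  have hQc : ((Gd g k A M J).ncard : ℝ) ≤ (T : ℝ) ^ 2 * (Q.ncard : ℝ) := by
    have h1 := himg.trans (Nat.mul_le_mul_left (T ^ 2) (Set.ncard_le_ncard hsubQ hQfin))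
    exact_mod_cast h1
  -- final computation
  have hXh : X ^ (1 / 2 - ε) / q * (C ^ 2 * X ^ (2 * θ)) ≤
      3 * (k : ℝ) * J ^ 2 * M / (2 * 2 ^ om M) := by
    have h3k : (3 * (k : ℝ)) = c ^ 2 * g := by exact_mod_cast hk3
    have hc2 : (g : ℝ) ≤ 3 * k := by
      rw [h3k]
      have : (1 : ℝ) ≤ (c : ℝ) ^ 2 := one_le_pow₀ hcR1
      nlinarith
    have h5 : X ^ (1 / 2 - ε / 200) / (4 * (c : ℝ) ^ 4 * q) ≤ g * M * Y ^ 2 := by
      have e1 : (g : ℝ) * M * Y ^ 2 = X ^ (1 / 2 : ℝ) / (4 * (c : ℝ) ^ 4 * (g * M)) := by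
        have : (X ^ (1 / 4 : ℝ)) ^ 2 = X ^ (1 / 2 : ℝ) := by
          rw [← Real.rpow_natCast, ← Real.rpow_mul hX0.le]; norm_num
        rw [hY, div_pow, this]; field_simp; ring
      rw [e1]
      have e2' : X ^ (1 / 2 - ε / 200) = X ^ (1 / 2 : ℝ) / X ^ (ε / 200) := by
        rw [← Real.rpow_sub hX0]
      rw [e2', div_div]
      apply div_le_div_of_nonneg_left (by positivity) (by positivity)
      calc 4 * (c : ℝ) ^ 4 * (g * M) ≤ 4 * (c : ℝ) ^ 4 * (q * X ^ (ε / 200)) := by gcongr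
        _ = _ := by ring
    have h6 : (g : ℝ) * M * (Y / 2) ^ 2 ≤ 3 * (k : ℝ) * J ^ 2 * M := by
      calc (g : ℝ) * M * (Y / 2) ^ 2 ≤ (3 * k) * M * (J : ℝ) ^ 2 := by
            gcongr
        _ = _ := by ring
    calc X ^ (1 / 2 - ε) / q * (C ^ 2 * X ^ (2 * θ))
        = (X ^ (1 / 2 - ε) * X ^ (2 * θ)) * C ^ 2 / q := by ring
      _ = X ^ (1 / 2 - ε + 2 * θ) * C ^ 2 / q := by rw [Real.rpow_add hX0]
      _ ≤ (X ^ (1 / 2 - ε / 200) / (4 * (c : ℝ) ^ 4 * q)) / 4 / (2 * (C * X ^ θ)) := by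
          rw [div_div, div_div, div_le_div_iff₀ (by positivity) (by positivity)]
          have e8 : X ^ (1 / 2 - ε / 200) = X ^ (1 / 2 - ε + 2 * θ) * X ^ θ *
              X ^ (ε - ε / 200 - 3 * θ) := by
            rw [← Real.rpow_add hX0, ← Real.rpow_add hX0]; congr 1; ring
          have e9 : X ^ (ε / 2) ≤ X ^ (ε - ε / 200 - 3 * θ) := by
            apply Real.rpow_le_rpow_of_exponent_le hX1
            rw [hθ]; linarith
          rw [e8]
          calc X ^ (1 / 2 - ε + 2 * θ) * C ^ 2 * (4 * (c : ℝ) ^ 4 * q * (4 * (2 * (C * X ^ θ))))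
              = X ^ (1 / 2 - ε + 2 * θ) * X ^ θ * (32 * (c : ℝ) ^ 4 * C ^ 3) * q := by ring
            _ ≤ X ^ (1 / 2 - ε + 2 * θ) * X ^ θ * (32 * (c : ℝ) ^ 4 * C ^ 5) * q := by
                gcongr
                norm_num
            _ ≤ X ^ (1 / 2 - ε + 2 * θ) * X ^ θ * X ^ (ε - ε / 200 - 3 * θ) * q := by
                gcongr
                exact e7.trans e9
      _ ≤ (g * M * Y ^ 2) / 4 / (2 * 2 ^ om M) := by
          gcongr
      _ = (g * M * (Y / 2) ^ 2) / (2 * 2 ^ om M) := by ring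
      _ ≤ _ := by gcongr
  have hT2 : (T : ℝ) ^ 2 ≤ C ^ 2 * X ^ (2 * θ) := by
    calc (T : ℝ) ^ 2 ≤ (C * X ^ θ) ^ 2 := by gcongr
      _ = C ^ 2 * X ^ (2 * θ) := by
          rw [mul_pow, ← Real.rpow_natCast (X ^ θ), ← Real.rpow_mul hX0.le]
          congr 2
          push_cast; ring
  have hfin : X ^ (1 / 2 - ε) / q * (C ^ 2 * X ^ (2 * θ)) ≤
      (Q.ncard : ℝ) * (C ^ 2 * X ^ (2 * θ)) := by
    calc _ ≤ _ := hXh
      _ ≤ _ := hcore
      _ ≤ (T : ℝ) ^ 2 * (Q.ncard : ℝ) := hQc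
      _ ≤ (C ^ 2 * X ^ (2 * θ)) * (Q.ncard : ℝ) := by gcongr
      _ = _ := by ring
  exact le_of_mul_le_mul_right hfin (by positivity)

/-- the main theorem from the statements of the project -/
theorem main_of (hLOW : S_LOW) (hBOX : S_BOX) (hSM : S_SMALL) (hLG : S_LARGE) (hGD : S_GOOD)
    (ε : ℝ) (hε : 0 < ε) :
    ∃ X₀ : ℝ, ∀ X : ℝ, X₀ ≤ X → ∀ q : ℕ, 1 ≤ q → (q : ℝ) ^ (4 + ε) ≤ X → ∀ a : ℕ,
      Squarefree (Nat.gcd a q) → X ^ (1 / 2 - ε) / q ≤
        ({n : ℕ | (n : ℝ) ≤ X ∧ Squarefree n ∧ n ≡ a [MOD q] ∧ IsCongruent n}.ncard : ℝ) := by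
  obtain ⟨X₀, h⟩ := main_aux hLOW hBOX hSM hLG hGD (min ε 1) (lt_min hε one_pos) (min_le_right _ _)
  refine ⟨max X₀ 1, fun X hX q hq hqX a hsf => ?_⟩
  have hX1 : (1 : ℝ) ≤ X := (le_max_right _ _).trans hX
  have hq1 : (1 : ℝ) ≤ q := by exact_mod_cast hq
  have h1 := h X ((le_max_left _ _).trans hX) q hq
    (le_trans (Real.rpow_le_rpow_of_exponent_le hq1 (by
      have := min_le_left ε 1
      linarith)) hqX) a hsf
  refine le_trans ?_ h1
  have h2 : X ^ (1 / 2 - ε) ≤ X ^ (1 / 2 - min ε 1) := by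
    apply Real.rpow_le_rpow_of_exponent_le hX1
    have := min_le_left ε 1
    linarith
  gcongr

end Pool.Agent.Y675.LN
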