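import Pool.Agent.Y675.LN.Main

/-! Project LN: forms with a fixed additional modulus `d` and with a representative `m`. -/

set_option autoImplicit false

namespace Pool.Agent.Y675.LN

open Filter

lemma sq_gcd {m N : ℕ} (hm : Squarefree m) : Squarefree (Nat.gcd m N) :=
  hm.squarefree_of_dvd (Nat.gcd_dvd_left m N)

/-- counting form with an additional fixed modulus -/
theorem main_d (d : ℕ) (hd : 1 ≤ d) (ε : ℝ) (hε : 0 < ε) :
    ∃ X₀ : ℝ, ∀ X : ℝ, X₀ ≤ X → ∀ q : ℕ, 1 ≤ q → (q : ℝ) ^ (4 + ε) ≤ X → ∀ m : ℕ,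
      Squarefree m → X ^ (1 / 2 - ε) / q ≤
        ({n : ℕ | (n : ℝ) ≤ X ∧ Squarefree n ∧ n ≡ m [MOD d * q] ∧ IsCongruent n}.ncard : ℝ) := by
  obtain ⟨X₁, h⟩ := main (ε / 2) (by positivity)
  have hdR : (1 : ℝ) ≤ d := by exact_mod_cast hd
  have hd0 : (0 : ℝ) < d := by linarith
  set η : ℝ := 1 - (4 + ε / 2) / (4 + ε) with hη
  have hη0 : 0 < η := by
    rw [hη, sub_pos, div_lt_one (by positivity)]; linarith
  have ev1 : ∀ᶠ X : ℝ in atTop, (d : ℝ) ^ (4 + ε / 2) ≤ X ^ η :=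
    (tendsto_rpow_atTop hη0).eventually_ge_atTop _
  have ev2 : ∀ᶠ X : ℝ in atTop, (d : ℝ) ≤ X ^ (ε / 2) :=
    (tendsto_rpow_atTop (by positivity)).eventually_ge_atTop _
  obtain ⟨X₂, hX₂⟩ := eventually_atTop.1 (ev1.and (ev2.and (eventually_ge_atTop (1 : ℝ))))
  refine ⟨max X₁ X₂, fun X hX q hq hqX m hm => ?_⟩
  obtain ⟨e1, e2, hX1⟩ := hX₂ X ((le_max_right _ _).trans hX)
  have hX0 : (0 : ℝ) < X := by linarith
  have hq0 : (0 : ℝ) < q := by exact_mod_cast hq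
  have hdq : ((d * q : ℕ) : ℝ) ^ (4 + ε / 2) ≤ X := by
    push_cast
    rw [Real.mul_rpow hd0.le hq0.le]
    have h1 : (q : ℝ) ^ (4 + ε / 2) = ((q : ℝ) ^ (4 + ε)) ^ ((4 + ε / 2) / (4 + ε)) := by
      rw [← Real.rpow_mul hq0.le]; congr 1; field_simp
    have h2 : (q : ℝ) ^ (4 + ε / 2) ≤ X ^ ((4 + ε / 2) / (4 + ε)) := by
      rw [h1]
      exact Real.rpow_le_rpow (by positivity) hqX (by positivity)
    calc (d : ℝ) ^ (4 + ε / 2) * (q : ℝ) ^ (4 + ε / 2)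
        ≤ X ^ η * X ^ ((4 + ε / 2) / (4 + ε)) := by gcongr
      _ = X ^ (1 : ℝ) := by rw [← Real.rpow_add hX0]; congr 1; rw [hη]; ring
      _ = X := Real.rpow_one X
  have h3 := h X ((le_max_left _ _).trans hX) (d * q) (Nat.mul_pos hd hq) hdq m (sq_gcd hm)
  refine le_trans ?_ h3
  push_cast
  rw [div_le_div_iff₀ hq0 (by positivity)]
  have e8 : X ^ (1 / 2 - ε / 2) = X ^ (1 / 2 - ε) * X ^ (ε / 2) := by
    rw [← Real.rpow_add hX0]; congr 1; ring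
  rw [e8]
  calc X ^ (1 / 2 - ε) * (d * q) = X ^ (1 / 2 - ε) * d * q := by ring
    _ ≤ X ^ (1 / 2 - ε) * X ^ (ε / 2) * q := by gcongr

/-- the least squarefree congruent number in a residue class -/
theorem least_d (d : ℕ) (hd : 1 ≤ d) (ε : ℝ) (hε : 0 < ε) :
    ∃ C : ℝ, 0 < C ∧ ∀ q : ℕ, 1 ≤ q → ∀ m : ℕ, Squarefree m →
      ∃ n : ℕ, (n : ℝ) ≤ C * (q : ℝ) ^ (4 + ε) ∧ Squarefree n ∧ n ≡ m [MOD d * q] ∧
        IsCongruent n := by
  obtain ⟨X₀, h⟩ := main_d d hd ε hε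
  refine ⟨max X₀ 1, lt_max_of_lt_right one_pos, fun q hq m hm => ?_⟩
  have hq1 : (1 : ℝ) ≤ q := by exact_mod_cast hq
  have hp1 : 1 ≤ (q : ℝ) ^ (4 + ε) := Real.one_le_rpow hq1 (by positivity)
  have hC1 : (1 : ℝ) ≤ max X₀ 1 := le_max_right _ _
  set X : ℝ := max X₀ 1 * (q : ℝ) ^ (4 + ε) with hX
  have h1 : X₀ ≤ X := by
    calc X₀ ≤ max X₀ 1 := le_max_left _ _
      _ = max X₀ 1 * 1 := (mul_one _).symm
      _ ≤ X := by rw [hX]; gcongr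
  have h2 : (q : ℝ) ^ (4 + ε) ≤ X := by
    calc (q : ℝ) ^ (4 + ε) = 1 * (q : ℝ) ^ (4 + ε) := (one_mul _).symm
      _ ≤ X := by rw [hX]; gcongr
  have h3 := h X h1 q hq h2 m hm
  have hXpos : 0 < X := by rw [hX]; positivity
  have h4 : 0 < X ^ (1 / 2 - ε) / (q : ℝ) := by positivity
  have h5 : {n : ℕ | (n : ℝ) ≤ X ∧ Squarefree n ∧ n ≡ m [MOD d * q] ∧ IsCongruent n}.ncard ≠ 0 := by
    intro h0
    rw [h0] at h3
    have : X ^ (1 / 2 - ε) / (q : ℝ) ≤ 0 := by simpa using h3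
    linarith
  obtain ⟨n, hn⟩ := Set.nonempty_of_ncard_ne_zero h5
  exact ⟨n, hn.1, hn.2⟩

end Pool.Agent.Y675.LN
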