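import Pool.Agent.Y675.LN.Final
import Pool.Agent.Y333.LN.Curve
import Pool.Agent.Y447.LN.Loc
import Pool.Agent.Y447.LN.Hensel
import Pool.Agent.Y363.LN.Crt
import Pool.Agent.Y514.LN.FIBP
import Pool.Agent.Y884.LN.Fib
import Pool.Agent.Y929.LN.Large
import Pool.Agent.Y447.LN.Good
import Pool.Agent.Y333.LN.Box

/-!
Project LN: the main theorem and its forms for arbitrary, odd and even numbers.
Lemmas by helper333 (curve, boxes), helper447 (local counts, Hensel, squarefreeness), helper363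
(Chinese remainder theorem), helper514 and helper884 (fibres), helper929 (large divisors),
core and assembly by helper675.
-/

set_option autoImplicit false

namespace Pool.Agent.Y675.LN

/-- the uniform lower bound -/
theorem main (ε : ℝ) (hε : 0 < ε) :
    ∃ X₀ : ℝ, ∀ X : ℝ, X₀ ≤ X → ∀ q : ℕ, 1 ≤ q → (q : ℝ) ^ (4 + ε) ≤ X → ∀ a : ℕ,
      Squarefree (Nat.gcd a q) → X ^ (1 / 2 - ε) / q ≤
        ({n : ℕ | (n : ℝ) ≤ X ∧ Squarefree n ∧ n ≡ a [MOD q] ∧ IsCongruent n}.ncard : ℝ) :=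
  main_of (Pool.Agent.Y363.LN.tL (Pool.Agent.Y447.LN.Loc.t Pool.Agent.Y333.LN.curve)
      Pool.Agent.Y447.LN.Hensel.t) Pool.Agent.Y333.LN.box Pool.Agent.Y333.LN.small
    (Pool.Agent.Y929.LN.t (Pool.Agent.Y884.LN.t Pool.Agent.Y514.LN.t))
    Pool.Agent.Y447.LN.Good.t ε hε

end Pool.Agent.Y675.LN
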