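import Pool.Agent.Y675.LN.Core
import Pool.Agent.H510R2.Div

/-! Project LN: auxiliary constructions for the final assembly. -/

set_option autoImplicit false

namespace Pool.Agent.Y675.LN

open Finset

/-- the modulus `M` and the class `A` -/
theorem construct (q a y : ℕ) (hq : 0 < q) :
    ∃ M A : ℕ, 0 < M ∧ Nat.Coprime A M ∧ (∀ p : ℕ, p.Prime → p ≤ y → p ∣ M) ∧
      Nat.gcd a q * M ≤ q * 4 ^ y ∧ Nat.gcd a q * A ≡ a [MOD q] ∧ q ∣ Nat.gcd a q * M := by
  set g := Nat.gcd a q with hg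
  have hg0 : 0 < g := Nat.gcd_pos_of_pos_right a hq
  obtain ⟨a', ha'⟩ : g ∣ a := Nat.gcd_dvd_left a q
  obtain ⟨q', hq'⟩ : g ∣ q := Nat.gcd_dvd_right a q
  have hcop : Nat.Coprime a' q' := by
    have h := Nat.coprime_div_gcd_div_gcd (m := a) (n := q) hg0
    rw [← hg] at h
    have e1 : a / g = a' := by rw [ha']; exact Nat.mul_div_cancel_left _ hg0
    have e2 : q / g = q' := by
      conv_lhs => rw [hq']
      exact Nat.mul_div_cancel_left _ hg0
    rwa [e1, e2] at h
  have hq'0 : 0 < q' := by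
    rcases Nat.eq_zero_or_pos q' with h | h
    · rw [h] at hq'; omega
    · exact h
  set P : Finset ℕ := (range (y + 1)).filter (fun p => p.Prime ∧ ¬ p ∣ q') with hP
  set R : ℕ := ∏ p ∈ P, p with hR
  have hR0 : 0 < R := by
    rw [hR]
    apply Finset.prod_pos
    intro p hp
    rw [hP, mem_filter] at hp
    exact hp.2.1.pos
  have hR4 : R ≤ 4 ^ y := by
    have h1 : R ≤ primorial y := by
      rw [hR, primorial]
      apply Finset.prod_le_prod_of_subset_of_one_le'
      · intro p hp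
        rw [hP, mem_filter] at hp
        rw [mem_filter]
        exact ⟨hp.1, hp.2.1⟩
      · intro p hp _
        rw [mem_filter] at hp
        exact hp.2.one_lt.le
    exact h1.trans (primorial_le_four_pow y)
  have hcR : Nat.Coprime q' R := by
    rw [hR]
    apply Nat.Coprime.prod_right
    intro p hp
    rw [hP, mem_filter] at hp
    exact ((Nat.Prime.coprime_iff_not_dvd hp.2.1).2 hp.2.2).symm
  obtain ⟨A, hA1, hA2⟩ := Nat.chineseRemainder hcR a' 1
  have cA1 : Nat.Coprime A q' := by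
    have h := hA1.gcd_eq
    unfold Nat.Coprime
    rw [h]; exact hcop
  have cA2 : Nat.Coprime A R := by
    have h := hA2.gcd_eq
    unfold Nat.Coprime
    rw [h]; exact Nat.gcd_one_left _
  refine ⟨q' * R, A, by positivity, Nat.Coprime.mul_right cA1 cA2, ?_, ?_, ?_, ?_⟩
  · intro p hp hpy
    by_cases h : p ∣ q'
    · exact h.mul_right R
    · refine Dvd.dvd.mul_left ?_ q'
      rw [hR]
      apply Finset.dvd_prod_of_mem
      rw [hP, mem_filter, mem_range]
      exact ⟨by omega, hp, h⟩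
  · calc g * (q' * R) = (g * q') * R := by ring
      _ = q * R := by rw [← hq']
      _ ≤ q * 4 ^ y := by gcongr
  · have h1 : g * A ≡ g * a' [MOD g * q'] := Nat.ModEq.mul_left' g hA1
    rw [← ha', ← hq'] at h1
    exact h1
  · refine ⟨R, ?_⟩
    conv_rhs => rw [hq']
    ring

/-- size of the numbers -/
theorem val_le (c g k A M J : ℕ) (hk : 3 * k = c ^ 2 * g) (x : ℕ × ℕ) (hx : x ∈ Pr k A M J) :
    val g k x ≤ 8 * c ^ 6 * (g * M * J) ^ 4 := by
  obtain ⟨-, h2, -, h4, -⟩ := hx
  have h5 : x.1 ≤ 2 * (c ^ 2 * g * J * M) := by rw [← hk]; exact h2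
  calc val g k x = g * (x.1 * x.2 * (x.1 ^ 2 - (3 * k) ^ 2 * x.2 ^ 2)) := rfl
    _ ≤ g * (x.1 * x.2 * x.1 ^ 2) := by gcongr; exact Nat.sub_le _ _
    _ ≤ g * ((2 * (c ^ 2 * g * J * M)) * (J * M) * (2 * (c ^ 2 * g * J * M)) ^ 2) := by gcongr
    _ = 8 * c ^ 6 * (g * M * J) ^ 4 := by ring

/-- few pairs give the same number -/
theorem card_le_image (g k A M J N T : ℕ) (hN : ∀ x ∈ Pr k A M J, val g k x ≤ N)
    (hT : ∀ n : ℕ, 1 ≤ n → n ≤ N → n.divisors.card ≤ T) :
    (Gd g k A M J).ncard ≤ T ^ 2 *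
      {n : ℕ | n ≤ N ∧ Squarefree n ∧ n ≡ g * A [MOD g * M] ∧ IsCongruent n}.ncard := by
  classical
  have hfin := Pr_finite k A M J
  have hGfin : (Gd g k A M J).Finite := hfin.subset (fun x hx => hx.1)
  have hIfin : {n : ℕ | n ≤ N ∧ Squarefree n ∧ n ≡ g * A [MOD g * M] ∧ IsCongruent n}.Finite :=
    (Set.finite_Iic N).subset (fun n hn => hn.1)
  rw [Set.ncard_eq_toFinset_card _ hGfin, Set.ncard_eq_toFinset_card _ hIfin, mul_comm]
  have h1 : hGfin.toFinset.card ≤ T ^ 2 * (hGfin.toFinset.image (val g k)).card := by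
    apply Finset.card_le_mul_card_image
    intro n hn
    rw [mem_image] at hn
    obtain ⟨x0, hx0, rfl⟩ := hn
    rw [Set.Finite.mem_toFinset] at hx0
    have hn0 : val g k x0 ≠ 0 := fun h => by
      have := hx0.2.1; rw [h] at this; exact not_squarefree_zero this
    calc (hGfin.toFinset.filter (fun x => val g k x = val g k x0)).card
        ≤ ((val g k x0).divisors ×ˢ (val g k x0).divisors).card := by
          apply card_le_card
          intro x hx
          rw [mem_filter] at hx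
          rw [mem_product, Nat.mem_divisors, Nat.mem_divisors, ← hx.2]
          have h0 : val g k x ≠ 0 := by rw [hx.2]; exact hn0
          refine ⟨⟨⟨g * (x.2 * (x.1 ^ 2 - (3 * k) ^ 2 * x.2 ^ 2)), ?_⟩, h0⟩,
            ⟨⟨g * (x.1 * (x.1 ^ 2 - (3 * k) ^ 2 * x.2 ^ 2)), ?_⟩, h0⟩⟩
          · rw [val]; ring
          · rw [val]; ring
      _ = (val g k x0).divisors.card ^ 2 := by rw [card_product, sq]
      _ ≤ T ^ 2 := by
          apply Nat.pow_le_pow_left
          exact hT _ (Nat.pos_of_ne_zero hn0) (hN x0 hx0.1)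
  have h2 : (hGfin.toFinset.image (val g k)).card ≤ hIfin.toFinset.card := by
    apply card_le_card
    intro n hn
    rw [mem_image] at hn
    obtain ⟨x, hx, rfl⟩ := hn
    rw [Set.Finite.mem_toFinset] at hx ⊢
    exact ⟨hN x hx.1, hx.2⟩
  calc _ ≤ _ := h1
    _ ≤ T ^ 2 * hIfin.toFinset.card := by gcongr
    _ = _ := by ring

theorem two_pow_om {q : ℕ} (hq : q ≠ 0) : 2 ^ om q ≤ q.divisors.card := by
  rw [Nat.card_divisors hq, om]
  calc 2 ^ q.primeFactors.card = ∏ p ∈ q.primeFactors, 2 := by rw [prod_const]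
    _ ≤ ∏ p ∈ q.primeFactors, (q.factorization p + 1) := by
      refine prod_le_prod' fun p hp => ?_
      have : 1 ≤ q.factorization p :=
        (Nat.prime_of_mem_primeFactors hp).factorization_pos_of_dvd hq (Nat.dvd_of_mem_primeFactors hp)
      omega

/-- number of prime factors of `g` which exceed `y` -/
theorem ng_bound (g M y : ℕ) (hg : g ≠ 0) (hyM : ∀ p : ℕ, p.Prime → p ≤ y → p ∣ M) :
    y ^ ng g M ≤ g := by
  rw [ng]
  calc y ^ (g.primeFactors.filter (fun p => ¬ p ∣ M)).card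
      = ∏ p ∈ g.primeFactors.filter (fun p => ¬ p ∣ M), y := by rw [prod_const]
    _ ≤ ∏ p ∈ g.primeFactors.filter (fun p => ¬ p ∣ M), p := by
        apply prod_le_prod'
        intro p hp
        rw [mem_filter, Nat.mem_primeFactors] at hp
        by_contra hcon
        exact hp.2 (hyM p hp.1.1 (by omega))
    _ ≤ ∏ p ∈ g.primeFactors, p := by
        apply Finset.prod_le_prod_of_subset_of_one_le' (filter_subset _ _)
        intro p hp _
        exact (Nat.prime_of_mem_primeFactors hp).one_lt.le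
    _ ≤ g := Nat.le_of_dvd (Nat.pos_of_ne_zero hg) (Nat.prod_primeFactors_dvd g)

end Pool.Agent.Y675.LN
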